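import Pool.Agent.W781.LW.Stm

/-!
# Embedding of an `RCLike` field in the complex numbers
-/

set_option autoImplicit false

open Matrix

namespace Pool.Agent.W591.LW

open Pool.Agent.W781.LW

section emb
variable {K : Type} [RCLike K]

/-- `z ↦ re z + i im z` -/
noncomputable def phi : K →+* ℂ where
  toFun z := ⟨RCLike.re z, RCLike.im z⟩
  map_one' := by
    apply Complex.ext <;> simp
  map_mul' z w := by
    apply Complex.ext
    · simp [RCLike.mul_re]
    · simp [RCLike.mul_im]
  map_zero' := by
    apply Complex.ext <;> simp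
  map_add' z w := by
    apply Complex.ext <;> simp

theorem phi_star (z : K) : phi (star z) = star (phi z) := by
  apply Complex.ext
  · show RCLike.re ((starRingEnd K) z) = RCLike.re z
    exact RCLike.conj_re z
  · show RCLike.im ((starRingEnd K) z) = - RCLike.im z
    exact RCLike.conj_im z

theorem norm_phi (z : K) : ‖phi z‖ = ‖z‖ := by
  have h1 : ‖phi z‖ ^ 2 = ‖z‖ ^ 2 := by
    have h2 := RCLike.norm_sq_eq_def (z := z)
    rw [h2, Complex.sq_norm, Complex.normSq_apply]
    rfl
  exact (pow_left_inj₀ (norm_nonneg _) (norm_nonneg _) two_ne_zero).1 h1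

variable {n : ℕ}

theorem fro_map (A : Matrix (Fin n) (Fin n) K) :
    fro (A.map phi) = ∑ i, ∑ j, ‖A i j‖ ^ 2 := by
  unfold fro
  simp only [Matrix.map_apply, norm_phi]

theorem map_mul' (A B : Matrix (Fin n) (Fin n) K) :
    (A * B).map phi = A.map phi * B.map phi := Matrix.map_mul

theorem map_sub' (A B : Matrix (Fin n) (Fin n) K) :
    (A - B).map phi = A.map phi - B.map phi :=
  Matrix.map_sub _ (map_sub phi) _ _

theorem com_map (A B : Matrix (Fin n) (Fin n) K) :
    com (A.map phi) (B.map phi) = (A * B - B * A).map phi := by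
  rw [com, map_sub', map_mul', map_mul']

theorem star_map (A : Matrix (Fin n) (Fin n) K) : (A.map phi)ᴴ = (Aᴴ).map phi := by
  ext i j
  simp only [Matrix.conjTranspose_apply, Matrix.map_apply, phi_star]

theorem trace_map (A : Matrix (Fin n) (Fin n) K) : trace (A.map phi) = phi (trace A) := by
  simp only [Matrix.trace, Matrix.diag_apply, Matrix.map_apply, map_sum]

theorem trace_star (A B : Matrix (Fin n) (Fin n) K) :
    trace (A.map phi * (B.map phi)ᴴ) = phi (trace (A * Bᴴ)) := by
  rw [star_map, ← map_mul', trace_map]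

theorem trace_eq (A B : Matrix (Fin n) (Fin n) K) :
    trace (A * Bᴴ) = ∑ i, ∑ j, star (B i j) * A i j := by
  simp only [Matrix.trace, Matrix.diag_apply, Matrix.mul_apply, Matrix.conjTranspose_apply]
  exact Finset.sum_congr rfl fun i _ => Finset.sum_congr rfl fun j _ => mul_comm _ _

theorem star_mul_self' (z : K) : star z * z = ((‖z‖ ^ 2 : ℝ) : K) := by
  have := RCLike.conj_mul z
  rw [RCLike.ofReal_pow]
  exact this

end emb

end Pool.Agent.W591.LW
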