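import Pool.Agent.W781.LW.Stm
import Pool.Agent.W591.LW.Emb

/-!
# LW-EIG: partial sums of the eigenvalues of `Y ↦ [X*, [X, Y]]`
-/

set_option autoImplicit false

open Matrix

namespace Pool.Agent.W591.LW

open Pool.Agent.W781.LW

section eig
variable {K : Type} [RCLike K] {n : ℕ}

/-- `[X*, [X, Y]]` -/
noncomputable def TT (X Y : Matrix (Fin n) (Fin n) K) : Matrix (Fin n) (Fin n) K :=
  Xᴴ * (X * Y - Y * X) - (X * Y - Y * X) * Xᴴ

/-- the matrix of the operator -/
noncomputable def Mx (X : Matrix (Fin n) (Fin n) K) : Matrix (Fin n × Fin n) (Fin n × Fin n) K :=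
  Matrix.of (fun p q : Fin n × Fin n => TT X (Matrix.single q.1 q.2 (1:K)) p.1 p.2)

/-- the matrix with the given entries -/
def ymat (v : Fin n × Fin n → K) : Matrix (Fin n) (Fin n) K := Matrix.of fun i j => v (i, j)

theorem ymat_eq (v : Fin n × Fin n → K) :
    ymat v = ∑ q : Fin n × Fin n, v q • Matrix.single q.1 q.2 (1:K) := by
  ext i j
  rw [Matrix.sum_apply, Finset.sum_eq_single (i, j)]
  · simp [ymat]
  · intro q _ hq
    rw [Matrix.smul_apply, Matrix.single_apply, if_neg, smul_zero]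
    rintro ⟨h1, h2⟩
    exact hq (Prod.ext h1 h2)
  · simp

/-- the operator as a linear map -/
noncomputable def TL (X : Matrix (Fin n) (Fin n) K) :
    Matrix (Fin n) (Fin n) K →ₗ[K] Matrix (Fin n) (Fin n) K where
  toFun Y := TT X Y
  map_add' Y Z := by
    simp only [TT, Matrix.mul_add, Matrix.add_mul, Matrix.mul_sub, Matrix.sub_mul]
    abel
  map_smul' c Y := by
    simp only [TT, Matrix.mul_smul, Matrix.smul_mul, Matrix.mul_sub, Matrix.sub_mul, smul_sub,
      RingHom.id_apply]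

theorem mulVec_eq (X : Matrix (Fin n) (Fin n) K) (v : Fin n × Fin n → K) (p : Fin n × Fin n) :
    (Mx X *ᵥ v) p = TT X (ymat v) p.1 p.2 := by
  have h : TT X (ymat v) = ∑ q : Fin n × Fin n, v q • TT X (Matrix.single q.1 q.2 (1:K)) := by
    have h1 : TT X (ymat v) = TL X (ymat v) := rfl
    rw [h1, ymat_eq, map_sum]
    refine Finset.sum_congr rfl fun q _ => ?_
    rw [map_smul]
    rfl
  rw [h, Matrix.sum_apply, Matrix.mulVec, dotProduct]
  refine Finset.sum_congr rfl fun q _ => ?_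
  rw [Matrix.smul_apply, smul_eq_mul, mul_comm]
  rfl

theorem quad (X Y : Matrix (Fin n) (Fin n) K) :
    ∑ i, ∑ j, star (Y i j) * TT X Y i j =
      ((∑ i, ∑ j, ‖(X * Y - Y * X) i j‖ ^ 2 : ℝ) : K) := by
  have h1 : ∑ i, ∑ j, star (Y i j) * TT X Y i j = trace (TT X Y * Yᴴ) := (trace_eq _ _).symm
  have h2 : trace (TT X Y * Yᴴ) = trace ((X * Y - Y * X) * (X * Y - Y * X)ᴴ) := by
    have hC : (X * Y - Y * X)ᴴ = Yᴴ * Xᴴ - Xᴴ * Yᴴ := by
      rw [Matrix.conjTranspose_sub, Matrix.conjTranspose_mul, Matrix.conjTranspose_mul]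
    rw [TT, hC]
    generalize X * Y - Y * X = C
    rw [Matrix.sub_mul, Matrix.mul_sub, Matrix.trace_sub, Matrix.trace_sub, Matrix.mul_assoc Xᴴ,
      Matrix.trace_mul_comm Xᴴ, Matrix.mul_assoc, Matrix.mul_assoc]
  rw [h1, h2, trace_eq]
  push_cast
  refine Finset.sum_congr rfl fun i _ => Finset.sum_congr rfl fun j _ => ?_
  rw [star_mul_self']
  push_cast
  rfl

theorem main_K (X : Matrix (Fin n) (Fin n) K) (hM : (Mx X).IsHermitian) :
    (∀ p, hM.eigenvalues p =
      ∑ i, ∑ j, ‖(X * ymat (⇑(hM.eigenvectorBasis p)) - ymat (⇑(hM.eigenvectorBasis p)) * X) i j‖ ^ 2) ∧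
    ∀ p q, trace (ymat (⇑(hM.eigenvectorBasis p)) * (ymat (⇑(hM.eigenvectorBasis q)))ᴴ) =
      if p = q then 1 else 0 := by
  have ho : ∀ p q, trace (ymat (⇑(hM.eigenvectorBasis p)) *
      (ymat (⇑(hM.eigenvectorBasis q)))ᴴ) = if p = q then 1 else 0 := by
    intro p q
    have h1 := orthonormal_iff_ite.1 hM.eigenvectorBasis.orthonormal q p
    rw [trace_eq]
    have h2 : inner K (hM.eigenvectorBasis q) (hM.eigenvectorBasis p) =
        ∑ i, ∑ j, star (ymat (⇑(hM.eigenvectorBasis q)) i j) *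
          ymat (⇑(hM.eigenvectorBasis p)) i j := by
      rw [PiLp.inner_apply, Fintype.sum_prod_type]
      refine Finset.sum_congr rfl fun i _ => Finset.sum_congr rfl fun j _ => ?_
      rw [RCLike.inner_apply, mul_comm]
      rfl
    rw [← h2, h1]
    by_cases h : p = q
    · rw [if_pos h, if_pos h.symm]
    · rw [if_neg h, if_neg (Ne.symm h)]
  refine ⟨fun p => ?_, ho⟩
  have h1 := hM.mulVec_eigenvectorBasis p
  set v : Fin n × Fin n → K := ⇑(hM.eigenvectorBasis p) with hv
  have h2 : ∀ i j, TT X (ymat v) i j = (hM.eigenvalues p : K) * ymat v i j := by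
    intro i j
    have h3 := congrFun h1 (i, j)
    rw [mulVec_eq] at h3
    rw [h3, Pi.smul_apply, RCLike.real_smul_eq_coe_mul]
    rfl
  have h3 := quad X (ymat v)
  have h4 : ∑ i, ∑ j, star (ymat v i j) * TT X (ymat v) i j = (hM.eigenvalues p : K) := by
    have h5 : ∑ i, ∑ j, star (ymat v i j) * TT X (ymat v) i j =
        (hM.eigenvalues p : K) * ∑ i, ∑ j, star (ymat v i j) * ymat v i j := by
      rw [Finset.mul_sum]
      refine Finset.sum_congr rfl fun i _ => ?_
      rw [Finset.mul_sum]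
      refine Finset.sum_congr rfl fun j _ => ?_
      rw [h2]
      ring
    have h6 := ho p p
    rw [trace_eq, if_pos rfl] at h6
    rw [h5, h6, mul_one]
  rw [h4] at h3
  exact_mod_cast h3

end eig

theorem f05301 : S_MAIN → S_05301 := by
  intro hmain K _ n X hX hM k _ _ S hS
  have hM' : (Mx X).IsHermitian := hM
  obtain ⟨h1, h2⟩ := main_K X hM'
  let e : Fin (2 * k) ≃ S := (S.equivFin.trans (finCongr hS)).symm
  let Z : Fin (2 * k) → Matrix (Fin n) (Fin n) ℂ :=
    fun a => (ymat (⇑(hM'.eigenvectorBasis (e a)))).map phi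
  have hZ : ∀ a, fro (Z a) = 1 := by
    intro a
    have h3 := h2 (e a) (e a)
    rw [trace_eq, if_pos rfl] at h3
    have h4 : ((∑ i, ∑ j, ‖ymat (⇑(hM'.eigenvectorBasis (e a))) i j‖ ^ 2 : ℝ) : K) = 1 := by
      rw [← h3]
      push_cast
      refine Finset.sum_congr rfl fun i _ => Finset.sum_congr rfl fun j _ => ?_
      rw [star_mul_self']
      push_cast
      rfl
    show fro ((ymat (⇑(hM'.eigenvectorBasis (e a)))).map phi) = 1
    rw [fro_map]
    exact_mod_cast h4
  have hmn := hmain n (2 * k) (X.map phi) Z 1 zero_le_one (by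
    intro a b hab
    show trace ((ymat (⇑(hM'.eigenvectorBasis (e a)))).map phi *
      ((ymat (⇑(hM'.eigenvectorBasis (e b)))).map phi)ᴴ) = 0
    rw [trace_star, h2, if_neg, map_zero]
    intro h
    exact hab (e.injective (Subtype.ext h))) (fun a => (hZ a).le)
  have h5 : ∑ a, fro (com (X.map phi) (Z a)) = ∑ p ∈ S, hM'.eigenvalues p := by
    rw [← Finset.sum_coe_sort S]
    rw [← e.sum_comp]
    refine Finset.sum_congr rfl fun a _ => ?_
    show fro (com (X.map phi) ((ymat (⇑(hM'.eigenvectorBasis (e a)))).map phi)) = _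
    rw [com_map, fro_map, ← h1]
  have h6 : fro (X.map phi) = 1 := by
    rw [fro_map]
    exact hX
  rw [h5, h6, Finset.sum_congr rfl fun a _ => hZ a, Finset.sum_const, Finset.card_univ,
    Fintype.card_fin, nsmul_eq_mul] at hmn
  push_cast at hmn
  have h7 : ∑ p ∈ S, hM.eigenvalues p = ∑ p ∈ S, hM'.eigenvalues p := rfl
  rw [h7]
  linarith


end Pool.Agent.W591.LW
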